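import Mathlib
import Pool.Agent.LucasVanishAux

open Finset

namespace Pool.Agent.Results.MP_c87117_nt.LucasVanish

/-- For the Lucas sequence `U = U(11,1)` and every prime `p > 3` with `p` a nonzero square mod `13`,
`p` divides the sum of `C(2k,k)^2 U_k` over `0 ≤ k ≤ (p-1)/2`. -/
theorem result (U : ℕ → ℤ) (h0 : U 0 = 0) (h1 : U 1 = 1)
    (hrec : ∀ n, U (n + 2) = 11 * U (n + 1) - U n)
    (p : ℕ) (hp : p.Prime) (hp3 : 3 < p)
    (hres : p % 13 = 1 ∨ p % 13 = 3 ∨ p % 13 = 4 ∨ p % 13 = 9 ∨ p % 13 = 10 ∨ p % 13 = 12) :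
    (p : ℤ) ∣ ∑ k ∈ range ((p - 1) / 2 + 1), (Nat.choose (2 * k) k : ℤ) ^ 2 * U k :=
  Pool.Agent.LucasVanishAux.main U h0 h1 hrec p hp hp3 hres

end Pool.Agent.Results.MP_c87117_nt.LucasVanish
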